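import Mathlib

/-!
Global existence on `[0, ∞)` for autonomous ODEs with a bounded Lipschitz vector field.
-/

set_option autoImplicit false
open Filter Topology Set Metric
open scoped NNReal

namespace Pool.Agent.R213

variable {E : Type*} [NormedAddCommGroup E] [NormedSpace ℝ E] [CompleteSpace E]

lemma exists_solution_Icc {f : E → E} {K L : ℝ≥0} (hf : LipschitzWith K f)
    (hb : ∀ x, ‖f x‖ ≤ L) (x₀ : E) {T : ℝ} (hT : 0 ≤ T) :
    ∃ α : ℝ → E, α 0 = x₀ ∧ ∀ t ∈ Icc 0 T, HasDerivWithinAt α (f (α t)) (Icc 0 T) t := by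
  have h : IsPicardLindelof (fun _ : ℝ => f) (tmin := 0) (tmax := T) ⟨0, left_mem_Icc.2 hT⟩ x₀
      (L * ⟨T, hT⟩) 0 L K := by
    refine ⟨fun t _ => hf.lipschitzOnWith, fun x _ => continuousOn_const, fun t _ x _ => hb x, ?_⟩
    simp only [sub_zero, NNReal.coe_zero, sub_self]
    rw [max_eq_left hT]
    exact (NNReal.coe_mul L ⟨T, hT⟩).ge
  exact h.exists_eq_forall_mem_Icc_hasDerivWithinAt₀

omit [CompleteSpace E] in
lemma solution_unique_Icc {f : E → E} {K : ℝ≥0} (hf : LipschitzWith K f) {x₀ : E} {T : ℝ}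
    {α β : ℝ → E} (hα0 : α 0 = x₀) (hβ0 : β 0 = x₀)
    (hα : ∀ t ∈ Icc 0 T, HasDerivWithinAt α (f (α t)) (Icc 0 T) t)
    (hβ : ∀ t ∈ Icc 0 T, HasDerivWithinAt β (f (β t)) (Icc 0 T) t) : EqOn α β (Icc 0 T) := by
  refine ODE_solution_unique (v := fun _ => f) (K := K) (fun _ => hf)
    (fun t ht => (hα t ht).continuousWithinAt) (fun t ht => ?_)
    (fun t ht => (hβ t ht).continuousWithinAt) (fun t ht => ?_) (hα0.trans hβ0.symm)
  · exact (hα t ⟨ht.1, ht.2.le⟩).mono_of_mem_nhdsWithin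
      (mem_of_superset (Icc_mem_nhdsGE ht.2) (Icc_subset_Icc ht.1 le_rfl))
  · exact (hβ t ⟨ht.1, ht.2.le⟩).mono_of_mem_nhdsWithin
      (mem_of_superset (Icc_mem_nhdsGE ht.2) (Icc_subset_Icc ht.1 le_rfl))

/-- A bounded Lipschitz vector field has a solution on `[0, ∞)` for every initial value. -/
theorem exists_solution_Ici {f : E → E} {K L : ℝ≥0} (hf : LipschitzWith K f)
    (hb : ∀ x, ‖f x‖ ≤ L) (x₀ : E) :
    ∃ α : ℝ → E, α 0 = x₀ ∧ ∀ t, 0 ≤ t → HasDerivWithinAt α (f (α t)) (Ici 0) t := by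
  choose α hα0 hα using fun n : ℕ => exists_solution_Icc hf hb x₀ (T := (n : ℝ)) n.cast_nonneg
  have hagree : ∀ m n : ℕ, m ≤ n → EqOn (α m) (α n) (Icc 0 (m : ℝ)) := by
    intro m n hmn
    have hmn' : (m : ℝ) ≤ n := Nat.cast_le.2 hmn
    exact solution_unique_Icc hf (hα0 m) (hα0 n) (hα m) fun t ht =>
      (hα n t ⟨ht.1, ht.2.trans hmn'⟩).mono (Icc_subset_Icc le_rfl hmn')
  set γ : ℝ → E := fun t => α (⌊t⌋₊ + 1) t with hγ
  have hγeq : ∀ n : ℕ, EqOn γ (α n) (Ico 0 (n : ℝ)) := by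
    intro n t ht
    have h1 : ⌊t⌋₊ + 1 ≤ n := by
      have := (Nat.floor_lt ht.1).2 ht.2
      omega
    exact hagree _ _ h1 ⟨ht.1, by push_cast; exact (Nat.lt_floor_add_one t).le⟩
  refine ⟨γ, ?_, fun t ht => ?_⟩
  · have := hγeq 1 (show (0 : ℝ) ∈ Ico 0 ((1 : ℕ) : ℝ) by norm_num)
    rw [this, hα0]
  · set n : ℕ := ⌊t⌋₊ + 1 with hn
    have htn : t < n := by rw [hn]; push_cast; exact Nat.lt_floor_add_one t
    have hmem : t ∈ Ico (0 : ℝ) n := ⟨ht, htn⟩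
    have h1 : HasDerivWithinAt (α n) (f (α n t)) (Ici 0) t := by
      refine (hα n t ⟨ht, htn.le⟩).mono_of_mem_nhdsWithin ?_
      have : Icc (0 : ℝ) n = Ici 0 ∩ Iic (n : ℝ) := rfl
      rw [this]
      exact inter_mem self_mem_nhdsWithin (mem_nhdsWithin_of_mem_nhds (Iic_mem_nhds htn))
    rw [← hγeq n hmem] at h1
    refine h1.congr_of_eventuallyEq ?_ (hγeq n hmem)
    have h2 : Ico (0 : ℝ) n ∈ 𝓝[Ici 0] t := by
      have : Ico (0 : ℝ) n = Ici 0 ∩ Iio (n : ℝ) := rfl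
      rw [this]
      exact inter_mem self_mem_nhdsWithin (mem_nhdsWithin_of_mem_nhds (Iio_mem_nhds htn))
    filter_upwards [h2] with s hs using hγeq n hs

end Pool.Agent.R213
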